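import Mathlib
import Pool.Agent.Q38.ContactPlane

/-!
# The family `(x^3 + y^5 + a y^6 + b y^8, x^2 y + x y^2)` in characteristic 2

All members of the family are contact equivalent.
-/

namespace Pool.Agent.Results.MP_3155f9_ag.AllEquivalent

open MvPowerSeries Pool.Agent.Q38.ContactPlane

variable {F : Type*} [Field F]

/-- `f_{a,b} = (x^3 + y^5 + a y^6 + b y^8, x^2 y + x y^2)`. -/
noncomputable def fam (a b : F) : Fin 2 → MvPowerSeries (Fin 2) F :=
  ![X 0 ^ 3 + X 1 ^ 5 + C a * X 1 ^ 6 + C b * X 1 ^ 8, X 0 ^ 2 * X 1 + X 0 * X 1 ^ 2]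

/-- `(1 + s y)⁻¹`. -/
noncomputable def invU (s : F) : MvPowerSeries (Fin 2) F := (1 + C s * X 1)⁻¹

lemma mul_invU (s : F) : (1 + C s * X 1 : MvPowerSeries (Fin 2) F) * invU s = 1 := by
  rw [invU]
  apply MvPowerSeries.mul_inv_cancel
  simp

/-- `x ↦ x + s y^4`, `y ↦ y / (1 + s y)`. -/
noncomputable def mapA (s : F) : Fin 2 → MvPowerSeries (Fin 2) F :=
  ![X 0 + C s * X 1 ^ 4, X 1 * invU s]

/-- The inverse substitution `x ↦ x - s (y / (1 - s y))^4`, `y ↦ y / (1 - s y)`. -/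
noncomputable def mapB (s : F) : Fin 2 → MvPowerSeries (Fin 2) F :=
  ![X 0 - C s * (X 1 * invU (-s)) ^ 4, X 1 * invU (-s)]

lemma constA (s : F) : ∀ i, constantCoeff (mapA s i) = 0 := by
  intro i
  fin_cases i <;> simp [mapA]

lemma constB (s : F) : ∀ i, constantCoeff (mapB s i) = 0 := by
  intro i
  fin_cases i <;> simp [mapB]

/-- If a substitution sends `y` to `y / (1 + s y)`, then it sends `y / (1 - s y)` to `y`. -/
lemma subst_aux (s : F) (c : Fin 2 → MvPowerSeries (Fin 2) F) (hc : HasSubst c)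
    (h : c 1 = X 1 * invU s) : subst c (X 1 * invU (-s)) = X 1 := by
  have h1 := congrArg (subst c) (mul_invU (-s))
  have hone : subst c (1 : MvPowerSeries (Fin 2) F) = 1 := by
    rw [← substAlgHom_apply hc, map_one]
  rw [subst_mul hc, subst_add hc, subst_mul hc, subst_X hc, subst_C, hone, h] at h1
  rw [subst_mul hc, subst_X hc, h]
  have h2 : (1 + C (-s) * (X 1 * invU s) : MvPowerSeries (Fin 2) F) ≠ 0 := by
    intro h3
    rw [h3, zero_mul] at h1
    exact zero_ne_one h1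
  apply mul_left_cancel₀ h2
  have h4 := mul_invU s
  rw [map_neg] at h1 ⊢
  linear_combination (X 1 * invU s) * h1 + X 1 * h4

lemma subst_aux' (s : F) (c : Fin 2 → MvPowerSeries (Fin 2) F) (hc : HasSubst c)
    (h : c 1 = X 1 * invU (-s)) : subst c (X 1 * invU s) = X 1 := by
  have := subst_aux (-s) c hc h
  rwa [neg_neg] at this

lemma substAB (s : F) : ∀ i, subst (mapA s) (mapB s i) = X i := by
  have ha := hasSubst_of (constA s)
  have h1 := subst_aux s (mapA s) ha rfl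
  intro i
  fin_cases i
  · show subst (mapA s) (X 0 - C s * (X 1 * invU (-s)) ^ 4) = X 0
    rw [subst_sub ha, subst_mul ha, subst_pow ha, h1, subst_X ha, subst_C]
    show X 0 + C s * X 1 ^ 4 - C s * X 1 ^ 4 = X 0
    ring
  · exact h1

lemma substBA (s : F) : ∀ i, subst (mapB s) (mapA s i) = X i := by
  have hb := hasSubst_of (constB s)
  have h1 := subst_aux' s (mapB s) hb rfl
  intro i
  fin_cases i
  · show subst (mapB s) (X 0 + C s * X 1 ^ 4) = X 0
    rw [subst_add hb, subst_mul hb, subst_pow hb, subst_X hb, subst_X hb, subst_C]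
    show X 0 - C s * (X 1 * invU (-s)) ^ 4 + C s * (X 1 * invU (-s)) ^ 4 = X 0
    ring
  · exact h1

/-- The automorphism `x ↦ x + s y^4`, `y ↦ y / (1 + s y)`. -/
noncomputable def auto (s : F) : MvPowerSeries (Fin 2) F ≃ₐ[F] MvPowerSeries (Fin 2) F :=
  substEquiv (mapA s) (mapB s) (constA s) (constB s) (substAB s) (substBA s)

lemma auto_X0 (s : F) : auto s (X 0) = X 0 + C s * X 1 ^ 4 := substEquiv_X _ _ _ _ _ _ 0

lemma auto_X1 (s : F) : auto s (X 1) = X 1 * invU s := substEquiv_X _ _ _ _ _ _ 1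

/-- The computation in the quotient `F[[x,y]] / m (g_1, g_2)`. -/
lemma quotient_calc {Q : Type*} [CommRing Q] (h2 : (2 : Q) = 0) (x y a b d s u w : Q)
    (hu : (1 + s * y) * u = 1)
    (H2 : y * (x ^ 3 + y ^ 5 + (a + s) * y ^ 6 + d * y ^ 8) = 0)
    (H3 : x * (x ^ 2 * y + x * y ^ 2) = 0) (H4 : y * (x ^ 2 * y + x * y ^ 2) = 0)
    (hw : (1 + (a + s) * y + d * y ^ 3) *
      (1 - y ^ 2 * (1 + (a + s) * y + d * y ^ 3)) * w = 1) :
    (x + s * y ^ 4) ^ 3 + (y * u) ^ 5 + a * (y * u) ^ 6 + b * (y * u) ^ 8 =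
      x ^ 3 + y ^ 5 + (a + s) * y ^ 6 + d * y ^ 8 ∧
    (x + s * y ^ 4) ^ 2 * (y * u) + (x + s * y ^ 4) * (y * u) ^ 2 =
      x ^ 2 * y + x * y ^ 2 := by
  have K1 : x * y ^ 3 + y ^ 6 + (a + s) * y ^ 7 + d * y ^ 9 = 0 := by
    linear_combination H2 - H3 + H4
  have K2 : y ^ 7 = 0 := by
    have K : y ^ 7 * ((1 + (a + s) * y + d * y ^ 3) *
        (1 - y ^ 2 * (1 + (a + s) * y + d * y ^ 3))) = 0 := by
      linear_combination (x - y ^ 3 * (1 + (a + s) * y + d * y ^ 3) + y) * K1 - y * H4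
    calc y ^ 7 = y ^ 7 * ((1 + (a + s) * y + d * y ^ 3) *
        (1 - y ^ 2 * (1 + (a + s) * y + d * y ^ 3)) * w) := by rw [hw, mul_one]
      _ = (y ^ 7 * ((1 + (a + s) * y + d * y ^ 3) *
        (1 - y ^ 2 * (1 + (a + s) * y + d * y ^ 3)))) * w := by ring
      _ = 0 := by rw [K, zero_mul]
  have K3 : x * y ^ 3 + y ^ 6 = 0 := by
    linear_combination K1 - ((a + s) + d * y ^ 2) * K2
  have K4 : x * y ^ 4 = 0 := by
    linear_combination y * K3 - K2
  have U1 : u * y ^ 6 - y ^ 6 = 0 := by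
    linear_combination y ^ 6 * hu - s * u * K2
  have U2 : u * y ^ 5 - (y ^ 5 - s * y ^ 6) = 0 := by
    linear_combination y ^ 5 * hu - s * U1
  have P2 : u ^ 2 * y ^ 5 - (y ^ 5 - 2 * s * y ^ 6) = 0 := by
    linear_combination (u + 1) * U2 - s * U1
  have P4 : u ^ 4 * y ^ 5 - (y ^ 5 - 4 * s * y ^ 6) = 0 := by
    linear_combination (u ^ 2 + 1) * P2 - 2 * s * (u + 1) * U1
  have P5 : u ^ 5 * y ^ 5 - (y ^ 5 - 5 * s * y ^ 6) = 0 := by
    linear_combination u * P4 + U2 - 4 * s * U1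
  have P6 : u ^ 6 * y ^ 6 - y ^ 6 = 0 := by
    linear_combination (u ^ 5 + u ^ 4 + u ^ 3 + u ^ 2 + u + 1) * U1
  constructor
  · linear_combination 3 * s * x * K4 + 3 * s ^ 2 * y ^ 4 * K4 + s ^ 3 * y ^ 5 * K2 + P5 +
      a * P6 - 3 * s * y ^ 6 * h2 + (b * u ^ 8 - d) * y * K2
  · linear_combination (x ^ 2 * y + (u + 1) * x * y ^ 2) * hu - s * u * H4 - s * u ^ 2 * K3 +
      s * u ^ 2 * y ^ 6 * h2 + 2 * s * u * y * K4 + s ^ 2 * u * y ^ 2 * K2

lemma contactEquiv_aux [CharP F 2] (a b d s : F) :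
    ContactEquiv (fam a b) (fam (a + s) d) := by
  let Q := MvPowerSeries (Fin 2) F ⧸ mIdeal (fam (a + s) d)
  let π : MvPowerSeries (Fin 2) F →+* Q := Ideal.Quotient.mk (mIdeal (fam (a + s) d))
  have h2F : (2 : F) = 0 := by
    have := CharP.cast_eq_zero F 2
    exact_mod_cast this
  have h2 : (2 : Q) = 0 := by
    have h : (2 : MvPowerSeries (Fin 2) F) = 0 := by
      rw [← map_ofNat (C : F →+* MvPowerSeries (Fin 2) F) 2]
      have : (OfNat.ofNat 2 : F) = 0 := h2F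
      rw [this, map_zero]
    rw [← map_ofNat π 2]
    have : (OfNat.ofNat 2 : MvPowerSeries (Fin 2) F) = 0 := h
    rw [this, map_zero]
  have hzero : ∀ z ∈ mIdeal (fam (a + s) d), π z = 0 := fun z hz =>
    Ideal.Quotient.eq_zero_iff_mem.2 hz
  have hg0 : fam (a + s) d 0 = X 0 ^ 3 + X 1 ^ 5 + C (a + s) * X 1 ^ 6 + C d * X 1 ^ 8 := rfl
  have hg1 : fam (a + s) d 1 = X 0 ^ 2 * X 1 + X 0 * X 1 ^ 2 := rfl
  have H2 : π (X 1 * fam (a + s) d 0) = 0 := hzero _ (Ideal.subset_span (by simp))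
  have H3 : π (X 0 * fam (a + s) d 1) = 0 := hzero _ (Ideal.subset_span (by simp))
  have H4 : π (X 1 * fam (a + s) d 1) = 0 := hzero _ (Ideal.subset_span (by simp))
  have hu := congrArg π (mul_invU s)
  have hW : ((1 + C (a + s) * X 1 + C d * X 1 ^ 3) *
      (1 - X 1 ^ 2 * (1 + C (a + s) * X 1 + C d * X 1 ^ 3)) *
      ((1 + C (a + s) * X 1 + C d * X 1 ^ 3) *
      (1 - X 1 ^ 2 * (1 + C (a + s) * X 1 + C d * X 1 ^ 3)))⁻¹ :
      MvPowerSeries (Fin 2) F) = 1 := by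
    apply MvPowerSeries.mul_inv_cancel
    simp
  have hw := congrArg π hW
  rw [hg0] at H2
  rw [hg1] at H3 H4
  simp only [map_add, map_mul, map_pow, map_sub, map_one] at H2 H3 H4 hu hw
  obtain ⟨r1, r2⟩ := quotient_calc h2 (π (X 0)) (π (X 1)) (π (C a)) (π (C b)) (π (C d))
    (π (C s)) (π (invU s)) _ hu H2 H3 H4 hw
  refine contactEquiv_of (fam a b) (fam (a + s) d) (auto s) 1 0 0 1 (by norm_num) ?_ ?_
  · rw [← Ideal.Quotient.eq_zero_iff_mem]
    show π (auto s (X 0 ^ 3 + X 1 ^ 5 + C a * X 1 ^ 6 + C b * X 1 ^ 8) -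
      (C 1 * (X 0 ^ 3 + X 1 ^ 5 + C (a + s) * X 1 ^ 6 + C d * X 1 ^ 8) +
        C 0 * (X 0 ^ 2 * X 1 + X 0 * X 1 ^ 2))) = 0
    simp only [map_add, map_mul, map_pow, map_sub, map_one, map_zero, algEquiv_C, auto_X0, auto_X1]
    linear_combination r1
  · rw [← Ideal.Quotient.eq_zero_iff_mem]
    show π (auto s (X 0 ^ 2 * X 1 + X 0 * X 1 ^ 2) -
      (C 0 * (X 0 ^ 3 + X 1 ^ 5 + C (a + s) * X 1 ^ 6 + C d * X 1 ^ 8) +
        C 1 * (X 0 ^ 2 * X 1 + X 0 * X 1 ^ 2))) = 0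
    simp only [map_add, map_mul, map_pow, map_sub, map_one, map_zero, algEquiv_C, auto_X0, auto_X1]
    linear_combination r2

/-- Over every field of characteristic `2` (in particular over an algebraically closed one) all
members `f_{a,b} = (x^3 + y^5 + a y^6 + b y^8, x^2 y + x y^2)` are contact equivalent; consequently
no nonempty subset `V` of `F^4` (in particular no nonempty Zariski-open one) consists of points
`(a, b, c, d)` with `f_{a,b}` not contact equivalent to `f_{c,d}`. -/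
theorem result (F : Type*) [Field F] [CharP F 2] :
    (∀ a b c d : F, ContactEquiv (fam a b) (fam c d)) ∧
    ∀ V : Set (Fin 4 → F), V.Nonempty →
      ¬ ∀ v ∈ V, ¬ ContactEquiv (fam (v 0) (v 1)) (fam (v 2) (v 3)) := by
  have key : ∀ a b c d : F, ContactEquiv (fam a b) (fam c d) := by
    intro a b c d
    have := contactEquiv_aux a b d (c - a)
    rwa [add_sub_cancel] at this
  refine ⟨key, ?_⟩
  rintro V ⟨v, hv⟩ h
  exact h v hv (key _ _ _ _)

end Pool.Agent.Results.MP_3155f9_ag.AllEquivalent
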